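import Pool.Agent.V1110.QciMod
import Mathlib.Algebra.Homology.DerivedCategory.Ext.ExactSequences
import Mathlib.Algebra.Category.ModuleCat.Ext.HasExt
import Mathlib.Algebra.Homology.ShortComplex.ModuleCat

/-!
Over a quantum complete intersection every finitely generated non-projective module has a
non-trivial self-extension.
-/

set_option autoImplicit false

namespace Pool.Agent.Results.MP_315024_al.NoRigidModules

open CategoryTheory MulOpposite Pool.Agent.V1110.Qci

universe u

theorem selfSplit_of_ext {R : Type u} [Ring R] (M : Type u) [AddCommGroup M] [Module R M]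
    (h : Subsingleton (Abelian.Ext.{u} (ModuleCat.of R M) (ModuleCat.of R M) 1)) :
    SelfSplit R M := by
  intro N _ _ f g hf hg hfg
  let S : ShortComplex (ModuleCat.{u} R) :=
    ShortComplex.mk (ModuleCat.ofHom f) (ModuleCat.ofHom g)
      (by rw [← ModuleCat.ofHom_comp, hfg.linearMap_comp_eq_zero]; rfl)
  have hS : S.ShortExact :=
    { exact := (ShortComplex.ShortExact.moduleCat_exact_iff_function_exact S).2 hfg
      mono_f := (ModuleCat.mono_iff_injective _).2 hf
      epi_g := (ModuleCat.epi_iff_surjective _).2 hg }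
  obtain ⟨x, hx⟩ := Abelian.Ext.covariant_sequence_exact₃ (ModuleCat.of R M) hS
    (Abelian.Ext.mk₀ (𝟙 (ModuleCat.of R M))) (n₁ := 1) rfl (Subsingleton.elim _ _)
  obtain ⟨y, rfl⟩ := (Abelian.Ext.mk₀_bijective _ _).2 x
  rw [Abelian.Ext.mk₀_comp_mk₀] at hx
  have hy := (Abelian.Ext.mk₀_bijective _ _).1 hx
  refine ⟨y.hom, fun m => ?_⟩
  exact congrArg (fun t : ModuleCat.of R M ⟶ ModuleCat.of R M => t.hom m) hy

/-- Let `A` be a quantum complete intersection over a field `K`, with exponents `a i ≥ 2` and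
non-zero parameters `q i j` (`j < i`), in any number `n` of generators. Every finitely generated
right `A`-module (a module over the opposite ring of `A`) that is not projective has
`Ext¹_A(M, M) ≠ 0`. -/
theorem result {K : Type u} [Field K] {n : ℕ} (a : Fin n → ℕ) (ha : ∀ i, 2 ≤ a i)
    (q : Fin n → Fin n → K) (hq : ∀ i j, j < i → q i j ≠ 0)
    (M : Type u) [AddCommGroup M] [Module (QCI K a q)ᵐᵒᵖ M] [Module.Finite (QCI K a q)ᵐᵒᵖ M]
    (hM : ¬ Module.Projective (QCI K a q)ᵐᵒᵖ M) :
    Nontrivial (Abelian.Ext.{u} (ModuleCat.of (QCI K a q)ᵐᵒᵖ M)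
      (ModuleCat.of (QCI K a q)ᵐᵒᵖ M) 1) := by
  by_contra hc
  rw [not_nontrivial_iff_subsingleton] at hc
  apply hM
  have hS := selfSplit_of_ext M hc
  letI : Module K M := Module.compHom M (algebraMap K (QCI K a q)ᵐᵒᵖ)
  haveI : IsScalarTower K (QCI K a q)ᵐᵒᵖ M := by
    refine ⟨fun c z m => ?_⟩
    show (c • z) • m = algebraMap K (QCI K a q)ᵐᵒᵖ c • (z • m)
    rw [Algebra.smul_def, mul_smul]
  haveI : Module.Finite K (QCI K a q) := finiteQCI a q fun i => by have := ha i; omega
  haveI : Module.Finite K (QCI K a q)ᵐᵒᵖ :=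
    Module.Finite.equiv (MulOpposite.opLinearEquiv K)
  haveI : Module.Finite K M := Module.Finite.trans (QCI K a q)ᵐᵒᵖ M
  exact projective_of_split a q M (fun i => by have := ha i; omega) hq hS

end Pool.Agent.Results.MP_315024_al.NoRigidModules
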